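import Pool.Agent.Lib.MP_77d3c1_ag.Final

set_option autoImplicit false

namespace Pool.Agent.Results.MP_77d3c1_ag.NormDegreeBoundFails

open Pool.Agent.Lib.MP_77d3c1_ag

universe u v w

/-- Over every algebraically closed field `k` of characteristic two (for instance an algebraic
closure of the field with two elements) there are a smooth projective curve `X` and a very ample
divisor `H = ∑ i, S i` on `X × X` such that, for every Weil cohomology theory `W` with
coefficients in a field `K` of characteristic zero, the uniform norm-degree bound for the
correspondences `G_r ∘ f` fails for every norm on the numerical classes; more precisely there are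
a rational number `r > 0` and a dynamical correspondence `f` of `X` such that `G_r ∘ f` has
negative degree.  This holds for both conventions on the action of correspondences. -/
theorem result (k : Type u) [Field k] [CharP k 2] [IsAlgClosed k] :
    ∃ (X : SPV k) (ι : Type) (_ : Fintype ι) (S : ι → Sub (X.prod X)),
      X.dim = 1 ∧ VeryAmple S ∧
      ∀ (K : Type v) [Field K] [CharZero K] (W : CohData.{u, v, w} k K) (cov : Bool), W.IsWeil →
        (∃ r : ℚ, 0 < r ∧ ∃ f : PCyc (X.prod X) X.dim →₀ ℕ, Dynamical f ∧
          ∃ D : PCyc (X.prod X) X.dim →₀ ℚ, W.Represents X cov r f D ∧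
            W.deg (W.clSum S) D < 0) ∧
        ∀ N : W.Num (X.prod X) X.dim → ℝ, W.IsNorm N → ¬ W.Bound X cov (W.clSum S) N :=
  main k

end Pool.Agent.Results.MP_77d3c1_ag.NormDegreeBoundFails
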