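import Pool.Agent.Lib.MP_77d3c1_ag.Polar

set_option autoImplicit false

namespace Pool.Agent.Results.MP_77d3c1_ag.SplitNormDegreeBound

open Pool.Agent.Lib.MP_77d3c1_ag Pool.Agent.Lib.MP_77d3c1_ag.Weil

universe u v w

/-- Let `k` be an algebraic closure of the field with `p` elements, `X` a smooth projective variety
over `k` and `W` a Weil cohomology theory with the usual positivity properties and for which the
Riemann hypothesis holds.  Every `G_r ∘ f` is represented by a rational cycle, and the uniform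
norm-degree bound `‖G_r ∘ f‖ ≤ C deg (G_r ∘ f)` holds, for every norm and both conventions on
the action of correspondences, in the following cases:

* the polarization of `X × X` is `p₁^* η₁ + p₂^* η₂` with `η₁` and `η₂` ample on `X`;
* the polarization of `X × X` is ample, and its class is a sum `p₁^* η₁ + p₂^* η₂`;
* `H^1(X) = 0`, and the polarization of `X × X` is any ample class. -/
theorem result (p : ℕ) [Fact p.Prime] (k : Type u) [Field k] [Algebra (ZMod p) k]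
    [IsAlgClosure (ZMod p) k] (K : Type v) [Field K] [CharZero K] (W : CohData.{u, v, w} k K)
    (hW : W.IsWeil) (hP : W.HasPositivity) (hF : W.HasFrobenius p) (X : SPV k) (cov : Bool) :
    (∀ r : ℚ, 0 < r → ∀ f : PCyc (X.prod X) X.dim →₀ ℕ,
      ∃ D : PCyc (X.prod X) X.dim →₀ ℚ, W.Represents X cov r f D) ∧
    ∀ N : W.Num (X.prod X) X.dim → ℝ, W.IsNorm N →
      (∀ η₁ η₂ : W.H X, W.Ample η₁ → W.Ample η₂ → W.Bound X cov (W.boxSum η₁ η₂) N) ∧
      (∀ η₁ η₂ : W.H X, W.Hom 2 η₁ → W.Hom 2 η₂ → W.Ample (W.boxSum η₁ η₂) →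
        W.Bound X cov (W.boxSum η₁ η₂) N) ∧
      (W.Vanishes X 1 → ∀ η : W.H (X.prod X), W.Ample η → W.Bound X cov η N) := by
  have hp : p.Prime := Fact.out
  have : IsAlgClosed k := IsAlgClosure.isAlgClosed (ZMod p)
  have : Algebra.IsAlgebraic (ZMod p) k := IsAlgClosure.isAlgebraic
  have : CharP k p := charP_of_injective_algebraMap (algebraMap (ZMod p) k).injective p
  have : Infinite k := IsAlgClosed.instInfinite
  have hk : FinFields p k := exists_pow_eq_self p k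
  obtain ⟨W', rfl⟩ : ∃ W' : Weil.{u, v, w} k K, W'.toCohData = W := ⟨⟨W, hW⟩, rfl⟩
  have hsum : ∀ N : W'.Num (X.prod X) X.dim → ℝ, W'.IsNorm N →
      ∀ η₁ η₂ : W'.H X, W'.Hom 2 η₁ → W'.Hom 2 η₂ → W'.Ample (W'.boxSum η₁ η₂) →
        W'.Bound X cov (W'.boxSum η₁ η₂) N := by
    rintro N hN η₁ η₂ h₁ h₂ ⟨m, ι, _, T, hm, hT, e⟩
    have hmK : (m : K) ≠ 0 := Nat.cast_ne_zero.2 hm.ne'
    have g₁ : (m : K) • η₁ ∈ W'.gr X 2 := Submodule.smul_mem _ _ h₁
    have g₂ : (m : K) • η₂ ∈ W'.gr X 2 := Submodule.smul_mem _ _ h₂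
    have e' : W'.clSum T = W'.dL ((m : K) • η₁) + W'.dR ((m : K) • η₂) := by
      rw [← e]
      unfold dL dR
      rw [map_smul, map_smul, ← smul_add]
      rfl
    have hpos : (0 : ℚ) < (m : ℚ)⁻¹ := inv_pos.2 (Nat.cast_pos.2 hm)
    have h := bound_general hk hP hF (splitPos_of_sum hP hT g₁ g₂ e')
      (fixed_of_sum hk hF hT g₁ g₂ e') hpos hpos cov hN
    have e'' : (((m : ℚ)⁻¹ : ℚ) : K) • W'.dL ((m : K) • η₁) +
        (((m : ℚ)⁻¹ : ℚ) : K) • W'.dR ((m : K) • η₂) = W'.boxSum η₁ η₂ := by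
      unfold dL dR
      push_cast
      rw [map_smul, map_smul, smul_smul, smul_smul, inv_mul_cancel₀ hmK, one_smul, one_smul]
      rfl
    rwa [e''] at h
  refine ⟨?_, fun N hN => ⟨?_, hsum N hN, ?_⟩⟩
  · intro r _ f
    obtain ⟨a, ha, hs⟩ := exists_stab hk X.closed
    obtain ⟨F, hfrob⟩ := exists_frob (hs 1)
    have hq : 1 < p ^ (a * 1) := Nat.one_lt_pow (by omega) hp.one_lt
    obtain ⟨_, _, π, _, _, _, _, hproj⟩ := exists_proj (W := W') hF X hq hfrob
    refine exists_represents hP hproj (isGraph_graph (Mor.id X)) ?_ cov r f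
    have h := eff_cl (W := W') (Sub.graph (Mor.id X))
    exact eff_gr h
  · rintro η₁ η₂ ⟨m₁, ι, _, S, hm₁, hS, e₁⟩ ⟨m₂, ι', _, S', hm₂, hS', e₂⟩
    have hmK₁ : (m₁ : K) ≠ 0 := Nat.cast_ne_zero.2 hm₁.ne'
    have hmK₂ : (m₂ : K) ≠ 0 := Nat.cast_ne_zero.2 hm₂.ne'
    have h := bound_general hk hP hF (splitPos_of_veryAmple (W := W') hP hS hS')
      (fixed_of_divisors hk hF hS hS') (α := (m₁ : ℚ)⁻¹) (β := (m₂ : ℚ)⁻¹)
      (inv_pos.2 (Nat.cast_pos.2 hm₁)) (inv_pos.2 (Nat.cast_pos.2 hm₂)) cov hN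
    have e₁' : W'.clSum S = (m₁ : K) • η₁ := e₁.symm
    have e₂' : W'.clSum S' = (m₂ : K) • η₂ := e₂.symm
    have e : (((m₁ : ℚ)⁻¹ : ℚ) : K) • W'.dL (W'.clSum S) +
        (((m₂ : ℚ)⁻¹ : ℚ) : K) • W'.dR (W'.clSum S') = W'.boxSum η₁ η₂ := by
      rw [e₁', e₂']
      unfold dL dR
      push_cast
      rw [map_smul, map_smul, smul_smul, smul_smul, inv_mul_cancel₀ hmK₁, inv_mul_cancel₀ hmK₂,
        one_smul, one_smul]
      rfl
    rwa [e] at h
  · intro h1 η hη
    obtain ⟨m, ι, _, T, hm, hT, e⟩ := id hη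
    have hmK : (m : K) ≠ 0 := Nat.cast_ne_zero.2 hm.ne'
    have hgr : η ∈ W'.gr _ 2 := by
      have e' : η = (m : K)⁻¹ • W'.clSum T := by
        rw [← e]
        show η = (m : K)⁻¹ • (m : K) • η
        rw [smul_smul, inv_mul_cancel₀ hmK, one_smul]
      rw [e']
      exact Submodule.smul_mem _ _ (clSum_gr hT.codim)
    obtain ⟨a, ha, b, hb, rfl⟩ := exists_sum
      ((Submodule.eq_bot_iff _).2 fun x hx => h1 x hx) hgr
    exact hsum N hN a b ha hb hη

end Pool.Agent.Results.MP_77d3c1_ag.SplitNormDegreeBound
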